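import Pool.Agent.Helper66_KF.Stmts
import Pool.Agent.Helper94_PP.Nch
import Pool.Agent.Helper26_PP.Cux
import Pool.Agent.Helper50_PP.Ffa
import Pool.Agent.Helper20_PP.Nls

/-!
# Squad KF, module CT4: the alternating sum vanishes for Klein four defect groups
-/

open scoped BigOperators

set_option linter.unusedSectionVars false

noncomputable section

namespace Pool.Agent.PP.KF.H56

open Pool.Agent.Helper51_AWC Pool.Agent.Helper79_WRA Pool.Agent.PP

attribute [local instance] Ideal.Quotient.field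

section gen

variable {F : Type} [Field F] {G : Type} [Group G] [Finite G]

theorem rk_zero (V : Submodule F (G → F)) {a : G → F} (ha : ∀ t, a t = 0) : rk a V = 0 := by
  have h1 : actL a = 0 := by
    apply LinearMap.ext
    intro f
    funext x
    change actF a f x = 0
    unfold actF
    simp only [ha, zero_mul, finsum_zero]
  unfold rk
  rw [h1, Submodule.map_zero, finrank_bot]

theorem v4_card {Q : Type} [Group Q] (h : V4 Q) : Nat.card Q ∣ 4 := by
  obtain ⟨j, hj⟩ := h
  have h1 := Subgroup.card_dvd_of_injective j hj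
  have h2 : Nat.card (Multiplicative (ZMod 2) × Multiplicative (ZMod 2)) = 4 := by
    rw [Nat.card_prod, Nat.card_eq_fintype_card, Fintype.card_multiplicative, ZMod.card]
  rwa [h2] at h1

theorem v4_sub : DF.SubCl V4 := by
  intro Q R _ _ j hj hR
  obtain ⟨k, hk⟩ := hR
  exact ⟨k.comp j, hk.comp hj⟩

theorem vb_equiv {H K : Type} [Group H] [Group K] [Finite H] [Finite K] (φ : H ≃* K) {e : K → F}
    (h : VB e) : VB (fun t => e (φ t)) := by
  refine ⟨H20.IsBlk_equiv φ h.blk, ?_, ?_⟩
  · exact DF.DfE.of_inj v4_sub φ.toMonoidHom φ.injective (fun t ht => ht) le_top h.df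
  · obtain ⟨V, hV, g, hg, hg'⟩ := h.ex
    refine ⟨V.map φ.symm.toMonoidHom, ?_, φ.symm g, ?_, ?_⟩
    · rw [← hV]
      exact (Nat.card_congr (φ.symm.subgroupMap V).toEquiv).symm
    · rw [Subgroup.mem_centralizer_iff]
      rintro _ ⟨v, hv, rfl⟩
      change φ.symm v * φ.symm g = φ.symm g * φ.symm v
      rw [← map_mul, ← map_mul, Subgroup.mem_centralizer_iff.1 hg v hv]
    · rwa [MulEquiv.apply_symm_apply]

/-- the terms -/
def RR (e : G → F) (X T : Subgroup G) : ℤ :=
  (Nat.card X : ℤ) * (rk (fun t : X => br T e t) (cfs F X) : ℤ)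

theorem mem_norm_sub {X V : Subgroup G} (hV : V ≤ X) (x : X) :
    x ∈ Subgroup.normalizer ((V.subgroupOf X : Subgroup X) : Set X) ↔
      (x : G) ∈ Subgroup.normalizer (V : Set G) := by
  rw [Subgroup.mem_normalizer_iff, Subgroup.mem_normalizer_iff]
  constructor
  · intro h y
    constructor
    · intro hy
      have h1 := (h ⟨y, hV hy⟩).1 (Subgroup.mem_subgroupOf.2 hy)
      exact Subgroup.mem_subgroupOf.1 h1
    · intro hy
      have h0 : y ∈ X := by
        have h2 := mul_mem (mul_mem (inv_mem x.2) (hV hy)) x.2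
        have h3 : (x : G)⁻¹ * ((x : G) * y * (x : G)⁻¹) * (x : G) = y := by group
        rwa [h3] at h2
      have h1 := (h ⟨y, h0⟩).2 (Subgroup.mem_subgroupOf.2 hy)
      exact Subgroup.mem_subgroupOf.1 h1
  · intro h y
    rw [Subgroup.mem_subgroupOf, Subgroup.mem_subgroupOf]
    exact h (y : G)

theorem mem_cent_sub {X V : Subgroup G} (hV : V ≤ X) (x : X) :
    x ∈ Subgroup.centralizer ((V.subgroupOf X : Subgroup X) : Set X) ↔
      (x : G) ∈ Subgroup.centralizer (V : Set G) := by
  rw [Subgroup.mem_centralizer_iff, Subgroup.mem_centralizer_iff]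
  constructor
  · intro h y hy
    have h1 := h ⟨y, hV hy⟩ (Subgroup.mem_subgroupOf.2 hy)
    exact congrArg Subtype.val h1
  · intro h y hy
    exact Subtype.ext (h (y : G) (Subgroup.mem_subgroupOf.1 hy))

/-- the normaliser in a subgroup -/
def nequiv {X V : Subgroup G} (hV : V ≤ X) :
    Subgroup.normalizer ((V.subgroupOf X : Subgroup X) : Set X) ≃*
      (X ⊓ Subgroup.normalizer (V : Set G) : Subgroup G) where
  toFun t := ⟨((t : X) : G), (t : X).2, (mem_norm_sub hV (t : X)).1 t.2⟩
  invFun t := ⟨⟨(t : G), t.2.1⟩, (mem_norm_sub hV ⟨(t : G), t.2.1⟩).2 t.2.2⟩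
  left_inv _ := rfl
  right_inv _ := rfl
  map_mul' _ _ := rfl

theorem term_eq {e : G → F} {X V T : Subgroup G} (hV : V ≤ X) (hT : T ≤ V) :
    ((Nat.card (Subgroup.normalizer ((V.subgroupOf X : Subgroup X) : Set X)) *
      rk (fun t : Subgroup.normalizer ((V.subgroupOf X : Subgroup X) : Set X) =>
        br (V.subgroupOf X) (fun t : X => br T e t) t)
        (cfs F (Subgroup.normalizer ((V.subgroupOf X : Subgroup X) : Set X))) : ℕ) : ℤ) =
      RR e (X ⊓ Subgroup.normalizer (V : Set G)) V := by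
  have h1 : (fun t : Subgroup.normalizer ((V.subgroupOf X : Subgroup X) : Set X) =>
        br (V.subgroupOf X) (fun t : X => br T e t) t) =
      fun t => (fun s : (X ⊓ Subgroup.normalizer (V : Set G) : Subgroup G) => br V e s)
        (nequiv hV t) := by
    funext t
    change br (V.subgroupOf X) (fun t : X => br T e t) (t : X) = br V e ((t : X) : G)
    by_cases ht : ((t : X) : G) ∈ Subgroup.centralizer (V : Set G)
    · rw [H66.br_of_mem ((mem_cent_sub hV (t : X)).2 ht), H66.br_of_mem ht, H66.br_of_mem]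
      exact Subgroup.centralizer_le hT ht
    · rw [H66.br_of_not_mem (fun h => ht ((mem_cent_sub hV (t : X)).1 h)), H66.br_of_not_mem ht]
  rw [h1, Helper26_PP.rk_iso (nequiv hV)
    (fun s : (X ⊓ Subgroup.normalizer (V : Set G) : Subgroup G) => br V e s),
    Nat.card_congr (nequiv hV).toEquiv]
  unfold RR
  push_cast
  rfl

theorem term_zero {e : G → F} (hdf : DF.DfE 2 V4 e ⊤) {X T : Subgroup G}
    (hX : X ≤ Subgroup.normalizer (T : Set G)) (hTp : IsPGroup 2 T) {V' : Subgroup X}
    (hV' : Nat.card V' = 4) (hT : ¬ T ≤ V'.map X.subtype) (t : X) :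
    br V' (fun t : X => br T e t) t = 0 := by
  by_contra h0
  have h1 : t ∈ Subgroup.centralizer (V' : Set X) := by
    by_contra h2
    exact h0 (H66.br_of_not_mem h2)
  rw [H66.br_of_mem h1] at h0
  have h2 : (t : G) ∈ Subgroup.centralizer (T : Set G) := by
    by_contra h3
    exact h0 (H66.br_of_not_mem h3)
  rw [H66.br_of_mem h2] at h0
  have hVc : Nat.card (V'.map X.subtype) = 4 := by
    rw [← hV']
    exact (Nat.card_congr (V'.equivMapOfInjective X.subtype X.subtype_injective).toEquiv).symm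
  have hVp : IsPGroup 2 (V'.map X.subtype) := by
    refine IsPGroup.of_card (n := 2) ?_
    rw [hVc]
    norm_num
  have hVX : V'.map X.subtype ≤ X := by
    rintro _ ⟨v, _, rfl⟩
    exact v.2
  have hp : IsPGroup 2 (V'.map X.subtype ⊔ T : Subgroup G) :=
    IsPGroup.to_sup_of_normal_right' hVp hTp (hVX.trans hX)
  have hc : (t : G) ∈ Subgroup.centralizer ((V'.map X.subtype ⊔ T : Subgroup G) : Set G) := by
    have h3 : V'.map X.subtype ⊔ T ≤ Subgroup.centralizer ({(t : G)} : Set G) := by
      refine sup_le ?_ ?_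
      · rintro _ ⟨v, hv, rfl⟩
        rw [Subgroup.mem_centralizer_singleton_iff]
        exact congrArg Subtype.val (Subgroup.mem_centralizer_iff.1 h1 v hv)
      · intro x hx
        rw [Subgroup.mem_centralizer_singleton_iff]
        exact Subgroup.mem_centralizer_iff.1 h2 x hx
    rw [Subgroup.mem_centralizer_iff]
    intro x hx
    have h4 := h3 hx
    rw [Subgroup.mem_centralizer_singleton_iff] at h4
    exact h4
  have h5 := v4_card (hdf _ le_top hp ⟨(t : G), hc, h0⟩)
  have h6 : V'.map X.subtype = (V'.map X.subtype ⊔ T : Subgroup G) := by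
    refine Subgroup.eq_of_le_of_card_ge le_sup_left ?_
    rw [hVc]
    exact Nat.le_of_dvd (by norm_num) h5
  exact hT (le_sup_right.trans h6.ge)

open Classical in
/-- the identity on `X`, read in `G` -/
theorem cnt {e : G → F} (hdf : DF.DfE 2 V4 e ⊤) {X T : Subgroup G}
    (hX : X ≤ Subgroup.normalizer (T : Set G)) (hTp : IsPGroup 2 T) [Fintype (Subgroup G)]
    (hI : ∑ᶠ (V : Subgroup X) (_ : Nat.card V = 4), Nat.card (Subgroup.normalizer (V : Set X)) *
      rk (fun t : Subgroup.normalizer (V : Set X) => br V (fun t : X => br T e t) t)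
        (cfs F (Subgroup.normalizer (V : Set X))) =
    Nat.card X * rk (fun t : X => br T e t) (cfs F X)) :
    ∑ V ∈ Finset.univ.filter (fun V : Subgroup G => Nat.card V = 4 ∧ T ≤ V ∧ V ≤ X),
      RR e (X ⊓ Subgroup.normalizer (V : Set G)) V = RR e X T := by
  have hfin : Fintype (Subgroup X) := Fintype.ofFinite _
  rw [finsum_eq_sum_of_fintype] at hI
  simp only [finsum_eq_if] at hI
  rw [← Finset.sum_filter] at hI
  have h1 : RR e X T = ((Nat.card X * rk (fun t : X => br T e t) (cfs F X) : ℕ) : ℤ) := by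
    unfold RR
    push_cast
    rfl
  rw [h1, ← hI, Nat.cast_sum]
  rw [← Finset.sum_subset (s₁ := Finset.univ.filter (fun V : Subgroup X => Nat.card V = 4 ∧
    T ≤ V.map X.subtype))]
  · refine Finset.sum_nbij' (fun V => V.subgroupOf X) (fun V' => V'.map X.subtype) ?_ ?_ ?_ ?_ ?_
    · intro V hV
      obtain ⟨_, h2, h3, h4⟩ := Finset.mem_filter.1 hV
      refine Finset.mem_filter.2 ⟨Finset.mem_univ _, ?_, ?_⟩
      · rw [← h2]
        exact Nat.card_congr (Subgroup.subgroupOfEquivOfLe h4).toEquiv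
      · rw [Subgroup.subgroupOf_map_subtype]
        exact le_inf h3 (h3.trans h4)
    · intro V hV
      obtain ⟨_, h2, h3⟩ := Finset.mem_filter.1 hV
      refine Finset.mem_filter.2 ⟨Finset.mem_univ _, ?_, h3, ?_⟩
      · rw [← h2]
        exact (Nat.card_congr (V.equivMapOfInjective X.subtype X.subtype_injective).toEquiv).symm
      · rintro _ ⟨v, _, rfl⟩
        exact v.2
    · intro V hV
      obtain ⟨_, _, _, h4⟩ := Finset.mem_filter.1 hV
      rw [Subgroup.subgroupOf_map_subtype, inf_eq_left.2 h4]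
    · intro V _
      exact Subgroup.comap_map_eq_self_of_injective X.subtype_injective V
    · intro V hV
      obtain ⟨_, _, h3, h4⟩ := Finset.mem_filter.1 hV
      exact (term_eq h4 h3).symm
  · intro V hV
    obtain ⟨_, h2, _⟩ := Finset.mem_filter.1 hV
    exact Finset.mem_filter.2 ⟨Finset.mem_univ _, h2⟩
  · intro V hV hV2
    obtain ⟨_, h2⟩ := Finset.mem_filter.1 hV
    have h3 : ¬ T ≤ V.map X.subtype := fun h => hV2 (Finset.mem_filter.2 ⟨Finset.mem_univ _, h2, h⟩)
    rw [rk_zero, mul_zero, Nat.cast_zero]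
    intro t
    exact term_zero hdf hX hTp h2 h3 (t : X)

end gen

section chains

variable {F : Type} [Field F] {G : Type} [Group G] [Finite G]

/-- the properties of a normal chain of `2`-subgroups -/
structure CH (d : Finset (Subgroup G)) : Prop where
  pg : ∀ D ∈ d, IsPGroup 2 D
  bot : ⊥ ∈ d
  ch : IsChain (· ≤ ·) (d : Set (Subgroup G))
  nc : NormalChain d

open Classical in
theorem mem_iff {d : Finset (Subgroup G)} :
    d ∈ (chainsOn (psubIn 2 (⊤ : Subgroup G)) ⊥).filter NormalChain ↔ CH d := by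
  rw [Finset.mem_filter, mem_chainsOn]
  constructor
  · rintro ⟨⟨h1, h2, h3⟩, h4⟩
    exact ⟨fun D hD => (mem_psubIn.1 (h1 hD)).2, h2, h3, h4⟩
  · rintro ⟨h1, h2, h3, h4⟩
    exact ⟨⟨fun D hD => mem_psubIn.2 ⟨le_top, h1 D hD⟩, h2, h3⟩, h4⟩

theorem CH.top {d : Finset (Subgroup G)} (h : CH d) : top d ∈ d ∧ ∀ D ∈ d, D ≤ top d :=
  H94.top_mem h.ch ⟨⊥, h.bot⟩

theorem CH.cent {d : Finset (Subgroup G)} (h : CH d) :
    Subgroup.centralizer (PP.top d : Set G) ≤ stab d := by
  intro x hx
  rw [H94.mem_stab']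
  intro D hD
  have h1 : x ∈ Subgroup.centralizer (D : Set G) := Subgroup.centralizer_le (h.top.2 D hD) hx
  exact Subgroup.centralizer_le_normalizer _ h1

theorem CH.norm {d : Finset (Subgroup G)} (h : CH d) :
    stab d ≤ Subgroup.normalizer (PP.top d : Set G) := by
  intro x hx
  exact H94.mem_stab'.1 hx _ h.top.1

open Classical in
/-- adding a larger member -/
theorem CH.ins {d : Finset (Subgroup G)} (h : CH d) {V : Subgroup G} (hV : Nat.card V = 4)
    (h1 : PP.top d ≤ V) (h2 : V ≤ stab d) : CH (insert V d) ∧ PP.top (insert V d) = V ∧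
      stab (insert V d) = stab d ⊓ Subgroup.normalizer (V : Set G) := by
  have htop : PP.top (insert V d) = V := by
    refine le_antisymm (sSup_le ?_) (le_sSup (Finset.mem_coe.2 (Finset.mem_insert_self _ _)))
    intro D hD
    rcases Finset.mem_insert.1 (Finset.mem_coe.1 hD) with rfl | hD
    · exact le_rfl
    · exact (h.top.2 D hD).trans h1
  refine ⟨⟨?_, ?_, ?_, ?_⟩, htop, ?_⟩
  · intro D hD
    rcases Finset.mem_insert.1 hD with rfl | hD
    · refine IsPGroup.of_card (n := 2) ?_
      rw [hV]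
      norm_num
    · exact h.pg D hD
  · exact Finset.mem_insert_of_mem h.bot
  · rw [Finset.coe_insert]
    refine h.ch.insert ?_
    intro D hD _
    exact Or.inr ((h.top.2 D hD).trans h1)
  · intro D hD
    rw [htop]
    rcases Finset.mem_insert.1 hD with rfl | hD
    · exact Subgroup.le_normalizer
    · intro x hx
      exact H94.mem_stab'.1 (h2 hx) D hD
  · ext x
    rw [Subgroup.mem_inf, H94.mem_stab', H94.mem_stab']
    constructor
    · intro h3
      exact ⟨fun D hD => h3 D (Finset.mem_insert_of_mem hD), h3 V (Finset.mem_insert_self _ _)⟩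
    · rintro ⟨h3, h4⟩ D hD
      rcases Finset.mem_insert.1 hD with rfl | hD
      · exact h4
      · exact h3 D hD

theorem CH.not_mem {d : Finset (Subgroup G)} (h : CH d) (hc : Nat.card (PP.top d) ∣ 2)
    {V : Subgroup G} (hV : Nat.card V = 4) : V ∉ d := by
  intro hVd
  have h1 := Subgroup.card_dvd_of_le (h.top.2 V hVd)
  have h2 := h1.trans hc
  rw [hV] at h2
  norm_num at h2

open Classical in
/-- removing the largest member -/
theorem CH.ers {d : Finset (Subgroup G)} (h : CH d) (hV : Nat.card (PP.top d) = 4) :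
    CH (d.erase (PP.top d)) ∧ PP.top (d.erase (PP.top d)) ≤ PP.top d ∧
      PP.top d ≤ stab (d.erase (PP.top d)) ∧ Nat.card (PP.top (d.erase (PP.top d))) ∣ 2 := by
  have hb : (⊥ : Subgroup G) ≠ PP.top d := by
    intro h0
    rw [← h0, Subgroup.card_bot] at hV
    norm_num at hV
  have hle : PP.top (d.erase (PP.top d)) ≤ PP.top d :=
    sSup_le fun D hD => h.top.2 D (Finset.mem_of_mem_erase (Finset.mem_coe.1 hD))
  have hc : CH (d.erase (PP.top d)) := by
    refine ⟨fun D hD => h.pg D (Finset.mem_of_mem_erase hD), Finset.mem_erase.2 ⟨hb, h.bot⟩,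
      h.ch.mono (fun D hD => Finset.mem_of_mem_erase hD), ?_⟩
    intro D hD
    exact hle.trans (h.nc D (Finset.mem_of_mem_erase hD))
  refine ⟨hc, hle, ?_, ?_⟩
  · intro x hx
    rw [H94.mem_stab']
    intro D hD
    exact h.nc D (Finset.mem_of_mem_erase hD) hx
  · have h1 := hc.top.1
    have h2 : PP.top (d.erase (PP.top d)) ≠ PP.top d := (Finset.mem_erase.1 h1).1
    have h3 : Nat.card (PP.top (d.erase (PP.top d))) ∣ 4 := hV ▸ Subgroup.card_dvd_of_le hle
    have h4 : Nat.card (PP.top (d.erase (PP.top d))) ≠ 4 := by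
      intro h5
      exact h2 (Subgroup.eq_of_le_of_card_ge hle (by rw [hV, h5]))
    have h5 : Nat.card (PP.top (d.erase (PP.top d))) ∣ 2 ^ 2 := h3
    obtain ⟨k, hk, hk'⟩ := (Nat.dvd_prime_pow Nat.prime_two).1 h5
    rw [hk'] at h4 ⊢
    have hk1 : k ≤ 1 := by
      by_contra h6
      have : k = 2 := by omega
      rw [this] at h4
      norm_num at h4
    exact pow_dvd_pow 2 hk1

open Classical in
/-- the chains with a given rest -/
theorem fib {e : G → F} {d : Finset (Subgroup G)} [Fintype (Subgroup G)] (h : CH d)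
    (hc : Nat.card (top d) ∣ 2)
    (hcnt : ∑ V ∈ Finset.univ.filter
        (fun V : Subgroup G => Nat.card V = 4 ∧ top d ≤ V ∧ V ≤ stab d),
      RR e (stab d ⊓ Subgroup.normalizer (V : Set G)) V = RR e (stab d) (top d)) :
    ∑ d' ∈ (((chainsOn (psubIn 2 (⊤ : Subgroup G)) ⊥).filter NormalChain).filter
        (fun d' => Nat.card (top d') = 4)).filter (fun d' => d'.erase (top d') = d),
      (-1 : ℤ) ^ (d'.card + 1) * RR e (stab d') (top d') =
      -((-1 : ℤ) ^ (d.card + 1) * RR e (stab d) (top d)) := by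
  rw [← hcnt, Finset.mul_sum, ← Finset.sum_neg_distrib]
  refine Finset.sum_nbij' (fun d' => top d') (fun V => insert V d) ?_ ?_ ?_ ?_ ?_
  · intro d' hd'
    obtain ⟨h0, h3⟩ := Finset.mem_filter.1 hd'
    obtain ⟨h1, h2⟩ := Finset.mem_filter.1 h0
    have hd2 := mem_iff.1 h1
    obtain ⟨_, k1, k2, _⟩ := hd2.ers h2
    rw [h3] at k1 k2
    exact Finset.mem_filter.2 ⟨Finset.mem_univ _, h2, k1, k2⟩
  · intro V hV
    obtain ⟨_, h1, h2, h3⟩ := Finset.mem_filter.1 hV
    obtain ⟨k1, k2, _⟩ := h.ins h1 h2 h3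
    refine Finset.mem_filter.2 ⟨Finset.mem_filter.2 ⟨mem_iff.2 k1, ?_⟩, ?_⟩
    · rw [k2]
      exact h1
    · rw [k2, Finset.erase_insert (h.not_mem hc h1)]
  · intro d' hd'
    obtain ⟨h0, h3⟩ := Finset.mem_filter.1 hd'
    obtain ⟨h1, _⟩ := Finset.mem_filter.1 h0
    have hd2 := mem_iff.1 h1
    change insert (top d') d = d'
    rw [← h3, Finset.insert_erase hd2.top.1]
  · intro V hV
    obtain ⟨_, h1, h2, h3⟩ := Finset.mem_filter.1 hV
    exact (h.ins h1 h2 h3).2.1
  · intro d' hd'
    obtain ⟨h0, h3⟩ := Finset.mem_filter.1 hd'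
    obtain ⟨h1, h2⟩ := Finset.mem_filter.1 h0
    have hd2 := mem_iff.1 h1
    obtain ⟨_, k1, k2, _⟩ := hd2.ers h2
    rw [h3] at k1 k2
    have h4 : insert (top d') d = d' := by rw [← h3, Finset.insert_erase hd2.top.1]
    have h5 := (h.ins h2 k1 k2).2.2
    rw [h4] at h5
    rw [← h5]
    have h6 : d'.card = d.card + 1 := by
      rw [← Finset.card_insert_of_notMem (h.not_mem hc h2), h4]
    rw [h6, pow_succ (-1 : ℤ) (d.card + 1)]
    ring

theorem blk_top {e : G → F} (h : VB e) {X T : Subgroup G} (hX : X = ⊤) (hT : T = ⊥) {c : X → F}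
    (hc : IsBlk c) (hec : mulF (fun t : X => br T e t) c = c) : VB c := by
  subst hX hT
  have h1 : (fun t : (⊤ : Subgroup G) => br ⊥ e t) = fun t => e (Subgroup.topEquiv t) := by
    funext t
    rw [H66.br_of_mem]
    · rfl
    · rw [Subgroup.mem_centralizer_iff]
      intro x hx
      rw [Subgroup.mem_bot.1 hx, one_mul, mul_one]
  rw [h1] at hec
  have h2 := vb_equiv Subgroup.topEquiv h
  rcases h2.blk.2.2 c hc.1 with h3 | h3
  · rw [h3] at hec
    rw [← hec]
    exact h2
  · rw [h3] at hec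
    exact absurd hec.symm hc.2.1

theorem blk_two {e : G → F} {X T : Subgroup G} {u : G} (hX : X = Cu u)
    (hT : ∀ x ∈ T, x = 1 ∨ x = u)
    (du : ∀ c : Cu u → F, IsBlk c → mulF (fun t : Cu u => e t) c = c → VB c)
    {c : X → F} (hc : IsBlk c) (hec : mulF (fun t : X => br T e t) c = c) : VB c := by
  subst hX
  have h1 : (fun t : Cu u => br T e t) = fun t : Cu u => e t := by
    funext t
    rw [H66.br_of_mem]
    rw [Subgroup.mem_centralizer_iff]
    intro x hx
    rcases hT x hx with rfl | rfl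
    · rw [one_mul, mul_one]
    · exact Subgroup.mem_centralizer_iff.1 t.2 x (Set.mem_singleton x)
  rw [h1] at hec
  exact du c hc hec

/-- the groups of order two -/
theorem exists_inv {T : Subgroup G} (hT : Nat.card T = 2) : ∃ u, Inv2 u ∧ u ∈ T ∧
    (∀ x ∈ T, x = 1 ∨ x = u) ∧ Subgroup.normalizer (T : Set G) = Cu u := by
  obtain ⟨u, hu, huniq⟩ := (Nat.card_eq_two_iff' (1 : T)).1 hT
  have h1 : ∀ x ∈ T, x = 1 ∨ x = (u : G) := by
    intro x hx
    by_cases h0 : (⟨x, hx⟩ : T) = 1
    · exact Or.inl (congrArg Subtype.val h0)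
    · exact Or.inr (congrArg Subtype.val (huniq ⟨x, hx⟩ h0))
  have h2 : (u : G) ≠ 1 := fun h0 => hu (Subtype.ext h0)
  have h3 : (u : G) * u = 1 := by
    rcases h1 _ (inv_mem u.2) with h4 | h4
    · exact absurd (inv_eq_one.1 h4) h2
    · nth_rewrite 1 [← h4]
      exact inv_mul_cancel _
  refine ⟨u, ⟨h3, h2⟩, u.2, h1, ?_⟩
  ext x
  rw [Subgroup.mem_normalizer_iff]
  constructor
  · intro h
    have h4 := (h (u : G)).1 u.2
    rcases h1 _ h4 with h5 | h5
    · exact absurd (by simpa using h5) h2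
    · rw [Subgroup.mem_centralizer_singleton_iff]
      exact (mul_inv_eq_iff_eq_mul.1 h5)
  · intro h y
    rw [Subgroup.mem_centralizer_singleton_iff] at h
    have h5 : x * u * x⁻¹ = (u : G) := mul_inv_eq_iff_eq_mul.2 h
    constructor
    · intro hy
      rcases h1 y hy with rfl | rfl
      · simp [T.one_mem]
      · rw [h5]
        exact hy
    · intro hy
      rcases h1 _ hy with h6 | h6
      · have h7 : y = 1 := by simpa using h6
        rw [h7]
        exact T.one_mem
      · have h7 : y = u := by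
          have h8 := h6.trans h5.symm
          have h9 := mul_right_cancel h8
          exact mul_left_cancel h9
        rw [h7]
        exact u.2

theorem stab_two {d : Finset (Subgroup G)} (h : CH d) (hc : Nat.card (PP.top d) = 2) :
    stab d = Subgroup.normalizer (PP.top d : Set G) := by
  refine le_antisymm h.norm ?_
  intro x hx
  rw [H94.mem_stab']
  intro D hD
  have h1 := h.top.2 D hD
  have h2 : Nat.card D ∣ 2 := hc ▸ Subgroup.card_dvd_of_le h1
  rcases (Nat.dvd_prime Nat.prime_two).1 h2 with h3 | h3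
  · rw [Subgroup.card_eq_one.1 h3]
    rw [Subgroup.mem_normalizer_iff]
    intro y
    rw [Subgroup.mem_bot, Subgroup.mem_bot]
    constructor
    · rintro rfl
      simp
    · intro h4
      simpa using h4
  · rw [Subgroup.eq_of_le_of_card_ge h1 (by rw [h3, hc])]
    exact hx

theorem stab_one {d : Finset (Subgroup G)} (h : CH d) (hc : Nat.card (PP.top d) = 1) :
    stab d = ⊤ := by
  rw [eq_top_iff]
  intro x _
  rw [H94.mem_stab']
  intro D hD
  have h1 := h.top.2 D hD
  rw [Subgroup.card_eq_one.1 hc, le_bot_iff] at h1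
  rw [h1, Subgroup.mem_normalizer_iff]
  intro y
  rw [Subgroup.mem_bot, Subgroup.mem_bot]
  constructor
  · rintro rfl
    simp
  · intro h4
    simpa using h4

theorem zero_of {e : G → F} (hdf : DF.DfE 2 V4 e ⊤) {d : Finset (Subgroup G)} (h : CH d)
    (hc : ¬ Nat.card (PP.top d) ∣ 4) : RR e (stab d) (PP.top d) = 0 := by
  unfold RR
  rw [rk_zero, Nat.cast_zero, mul_zero]
  intro t
  by_contra h0
  have h1 : (t : G) ∈ Subgroup.centralizer (PP.top d : Set G) := by
    by_contra h2
    exact h0 (H66.br_of_not_mem h2)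
  rw [H66.br_of_mem h1] at h0
  exact hc (v4_card (hdf _ le_top (h.pg _ h.top.1) ⟨(t : G), h1, h0⟩))

end chains

/-- CT4 -/
theorem ct4 (idn : IdnStmt) (du4 : Du4Stmt) (knr : KnrStmt) : Ct4Stmt := by
  classical
  intro M _ h2M G _ _ e he
  have hF : GoodF 2 (FF M) := H50.fld 2 Nat.prime_two M (by exact_mod_cast h2M)
  have : Fact (Nat.Prime 2) := ⟨Nat.prime_two⟩
  have hfin : Fintype (Subgroup G) := Fintype.ofFinite _
  rw [← knr 2 (FF M) hF G e he.blk.1]
  refine Eq.trans (H94.nch 2 G ⊤ (fun X T => RR e X T)) ?_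
  obtain ⟨S, hS⟩ : ∃ S : Finset (Finset (Subgroup G)),
      S = (chainsOn (psubIn 2 (⊤ : Subgroup G)) ⊥).filter NormalChain := ⟨_, rfl⟩
  have hmem : ∀ d, d ∈ S ↔ CH d := fun d => by rw [hS]; exact mem_iff
  rw [← hS]
  -- the identity for the chains with a small top
  have key : ∀ d, CH d → Nat.card (top d) ∣ 2 →
      ∑ d' ∈ (S.filter (fun d' => Nat.card (top d') = 4)).filter
          (fun d' => d'.erase (top d') = d),
        (-1 : ℤ) ^ (d'.card + 1) * RR e (stab d') (top d') =
        -((-1 : ℤ) ^ (d.card + 1) * RR e (stab d) (top d)) := by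
    intro d hd hc
    rw [hS]
    refine fib hd hc (cnt he.df hd.norm (hd.pg _ hd.top.1) ?_)
    refine idn M h2M (stab d) (fun t : stab d => br (top d) e t) ?_ ?_
    · exact (H20.brm 2 (FF M) hF G (top d) (stab d) (hd.pg _ hd.top.1) hd.cent hd.norm).2.2 e
        he.blk.1
    · intro c hcb hec
      rcases (Nat.dvd_prime Nat.prime_two).1 hc with h1 | h1
      · exact blk_top he (stab_one hd h1) (Subgroup.card_eq_one.1 h1) hcb hec
      · obtain ⟨u, hu, _, hu2, hu3⟩ := exists_inv h1
        exact blk_two ((stab_two hd h1).trans hu3) hu2 (fun c' h2 h3 => du4 M h2M G e he u hu c' h2 h3)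
          hcb hec
  have e1 := Finset.sum_filter_add_sum_filter_not S (fun d => Nat.card (top d) = 4)
    (fun d => (-1 : ℤ) ^ (d.card + 1) * RR e (stab d) (top d))
  rw [← e1]
  have e2 : ∑ d ∈ S.filter (fun d => Nat.card (top d) ∣ 2),
      (-1 : ℤ) ^ (d.card + 1) * RR e (stab d) (top d) =
      ∑ d ∈ S.filter (fun d => ¬ Nat.card (top d) = 4),
      (-1 : ℤ) ^ (d.card + 1) * RR e (stab d) (top d) := by
    refine Finset.sum_subset ?_ ?_
    · intro d hd
      obtain ⟨h1, h2⟩ := Finset.mem_filter.1 hd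
      refine Finset.mem_filter.2 ⟨h1, fun h3 => ?_⟩
      rw [h3] at h2
      norm_num at h2
    · intro d hd hd'
      obtain ⟨h1, h2⟩ := Finset.mem_filter.1 hd
      have h3 : ¬ Nat.card (top d) ∣ 2 := fun h => hd' (Finset.mem_filter.2 ⟨h1, h⟩)
      rw [zero_of he.df ((hmem d).1 h1), mul_zero]
      intro h4
      have h5 : Nat.card (top d) ∣ 2 ^ 2 := h4
      obtain ⟨k, hk, hk'⟩ := (Nat.dvd_prime_pow Nat.prime_two).1 h5
      rw [hk'] at h2 h3
      interval_cases k
      · exact h3 (by norm_num)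
      · exact h3 (by norm_num)
      · exact h2 (by norm_num)
  have e3 : ∑ d ∈ S.filter (fun d => Nat.card (top d) ∣ 2),
      ∑ d' ∈ (S.filter (fun d' => Nat.card (top d') = 4)).filter
          (fun d' => d'.erase (top d') = d),
        (-1 : ℤ) ^ (d'.card + 1) * RR e (stab d') (top d') =
      ∑ d' ∈ S.filter (fun d' => Nat.card (top d') = 4),
        (-1 : ℤ) ^ (d'.card + 1) * RR e (stab d') (top d') := by
    refine Finset.sum_fiberwise_of_maps_to ?_ _
    intro d' hd'
    obtain ⟨h1, h2⟩ := Finset.mem_filter.1 hd'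
    obtain ⟨k1, _, _, k2⟩ := ((hmem d').1 h1).ers h2
    exact Finset.mem_filter.2 ⟨(hmem _).2 k1, k2⟩
  rw [← e2, ← e3, Finset.sum_congr rfl (fun d hd => key d ((hmem d).1 (Finset.mem_filter.1 hd).1)
    (Finset.mem_filter.1 hd).2), Finset.sum_neg_distrib, neg_add_cancel]

end Pool.Agent.PP.KF.H56
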